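import Pool.Agent.R654.LS.Tensor

/-!
# Amplification for linear sofic approximations
-/

set_option autoImplicit false

namespace Pool.Agent.R654.LS

open Module

universe u v

/-- normalised rank distance on `GL(n, K)` -/
noncomputable def dRank {K : Type u} [Field K] {n : ℕ} (A B : GL (Fin n) K) : ℝ :=
  ((A.1 - B.1).rank : ℝ) / n

/-- `ε`-approximable groups -/
def Approximable (K : Type u) [Field K] (ε : ℝ) (G : Type v) [Group G] : Prop :=
  ∀ (F : Finset G) (δ : ℝ), 0 < δ → ∃ (n : ℕ) (φ : G → GL (Fin n) K), 1 ≤ n ∧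
    (∀ g ∈ F, ∀ h ∈ F, dRank (φ g * φ h) (φ (g * h)) < δ) ∧
    (∀ g ∈ F, ∀ h ∈ F, g ≠ h → ε - δ < dRank (φ g) (φ h))

section

variable {K : Type u} [Field K] {G : Type v} [Group G]

theorem Approximable.mono {ε ε' : ℝ} (hε : ε' ≤ ε) (h : Approximable K ε G) :
    Approximable K ε' G := by
  intro F δ hδ
  obtain ⟨n, φ, hn, h1, h2⟩ := h F δ hδ
  exact ⟨n, φ, hn, h1, fun g hg k hk hne => by linarith [h2 g hg k hk hne]⟩

/-- the general linear group as linear automorphisms -/
noncomputable def toEquiv (n : ℕ) : GL (Fin n) K ≃* ((Fin n → K) ≃ₗ[K] (Fin n → K)) :=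
  Matrix.GeneralLinearGroup.toLin.trans
    (LinearMap.GeneralLinearGroup.generalLinearEquiv K (Fin n → K))

theorem toEquiv_coe {n : ℕ} (A : GL (Fin n) K) :
    (toEquiv n A).toLinearMap = A.1.mulVecLin := by
  ext i j
  simp [toEquiv]

theorem dk_toEquiv {n : ℕ} (A B : GL (Fin n) K) : dk (toEquiv n A) (toEquiv n B) = dRank A B := by
  unfold dk dRank rk
  have h : A.1.mulVecLin - B.1.mulVecLin = (A.1 - B.1).mulVecLin := by
    apply LinearMap.ext
    intro v
    simp [Matrix.sub_mulVec]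
  rw [toEquiv_coe, toEquiv_coe, Module.finrank_fin_fun, h]
  rfl

theorem rk_self {V : Type*} [AddCommGroup V] [Module K V] (a : V ≃ₗ[K] V) : rk a a = 0 := by
  unfold rk
  rw [sub_self, LinearMap.range_zero, finrank_bot]

/-- conjugation by a linear isomorphism -/
noncomputable def conjE {V W : Type*} [AddCommGroup V] [Module K V] [AddCommGroup W] [Module K W]
    (e : V ≃ₗ[K] W) (a : V ≃ₗ[K] V) : W ≃ₗ[K] W := (e.symm.trans a).trans e

theorem conjE_mul {V W : Type*} [AddCommGroup V] [Module K V] [AddCommGroup W] [Module K W]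
    (e : V ≃ₗ[K] W) (a b : V ≃ₗ[K] V) : conjE e (a * b) = conjE e a * conjE e b := by
  ext w
  simp [conjE, LinearEquiv.mul_apply]

theorem dk_conjE {V W : Type*} [AddCommGroup V] [Module K V] [AddCommGroup W] [Module K W]
    (e : V ≃ₗ[K] W) (a b : V ≃ₗ[K] V) : dk (conjE e a) (conjE e b) = dk a b := by
  unfold dk
  rw [e.finrank_eq]
  congr 2
  unfold rk
  have h : LinearMap.range ((conjE e a).toLinearMap - (conjE e b).toLinearMap) =
      (LinearMap.range (a.toLinearMap - b.toLinearMap)).map e.toLinearMap := by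
    ext x
    constructor
    · rintro ⟨y, rfl⟩
      refine ⟨(a.toLinearMap - b.toLinearMap) (e.symm y), ⟨_, rfl⟩, ?_⟩
      simp [conjE]
    · rintro ⟨_, ⟨v, rfl⟩, rfl⟩
      refine ⟨e v, ?_⟩
      simp [conjE]
  rw [h]
  exact LinearEquiv.finrank_map_eq e _

/-- approximations by automorphisms of arbitrary finite dimensional spaces are enough -/
theorem approximable_of_equiv {ε : ℝ} (h : ∀ (F : Finset G) (δ : ℝ), 0 < δ →
    ∃ (V : Type u) (_ : AddCommGroup V) (_ : Module K V) (_ : FiniteDimensional K V)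
      (φ : G → (V ≃ₗ[K] V)), 1 ≤ finrank K V ∧
      (∀ g ∈ F, ∀ h ∈ F, dk (φ g * φ h) (φ (g * h)) < δ) ∧
      (∀ g ∈ F, ∀ h ∈ F, g ≠ h → ε - δ < dk (φ g) (φ h))) : Approximable K ε G := by
  intro F δ hδ
  obtain ⟨V, _, _, _, φ, hV, h1, h2⟩ := h F δ hδ
  let e : V ≃ₗ[K] (Fin (finrank K V) → K) := (finBasis K V).equivFun
  refine ⟨finrank K V, fun g => (toEquiv _).symm (conjE e (φ g)), hV, ?_, ?_⟩
  · intro g hg k hk
    rw [← map_mul, ← conjE_mul, ← dk_toEquiv, MulEquiv.apply_symm_apply,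
      MulEquiv.apply_symm_apply, dk_conjE]
    exact h1 g hg k hk
  · intro g hg k hk hne
    rw [← dk_toEquiv, MulEquiv.apply_symm_apply, MulEquiv.apply_symm_apply, dk_conjE]
    exact h2 g hg k hk hne

/-- tensor powers -/
theorem exists_power {V : Type u} [AddCommGroup V] [Module K V] [FiniteDimensional K V]
    (hV : 1 ≤ finrank K V) (φ : G → (V ≃ₗ[K] V)) (η : ℝ) (F : Finset G)
    (hη : ∀ g ∈ F, ∀ h ∈ F, dk (φ g * φ h) (φ (g * h)) ≤ η) (m : ℕ) :
    ∃ (U : Type u) (_ : AddCommGroup U) (_ : Module K U) (_ : FiniteDimensional K U)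
      (ψ : G → (U ≃ₗ[K] U)), 1 ≤ finrank K U ∧
      (∀ g ∈ F, ∀ h ∈ F, dk (ψ g * ψ h) (ψ (g * h)) ≤ m * (η / 2)) ∧
      (∀ g h, 1 - 2 * dk (ψ g) (ψ h) ≤ (1 - dk (φ g) (φ h)) ^ m) := by
  have hn0 : (0 : ℝ) < finrank K V := by exact_mod_cast hV
  induction m with
  | zero =>
    refine ⟨K, inferInstance, inferInstance, inferInstance, fun _ => 1, ?_, ?_, ?_⟩
    · rw [finrank_self]
    · intro g _ h _
      simp [dk, rk_self]
    · intro g h
      simp [dk, rk_self]
  | succ m ih =>
    obtain ⟨U, _, _, _, ψ, hU, h1, h2⟩ := ih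
    have hm0 : (0 : ℝ) < finrank K U := by exact_mod_cast hU
    refine ⟨U →ₗ[K] (V × V), inferInstance, inferInstance, inferInstance,
      fun g => T (pad (φ g)) (ψ g), ?_, ?_, ?_⟩
    · rw [finrank_linearMap, finrank_prod]
      nlinarith
    · intro g hg h hh
      rw [← T_mul, ← pad_mul]
      have e := rk_T_upper (pad (φ g * φ h)) (pad (φ (g * h))) (ψ g * ψ h) (ψ (g * h))
      rw [rk_pad, finrank_prod] at e
      have e' : (rk (T (pad (φ g * φ h)) (ψ g * ψ h)) (T (pad (φ (g * h))) (ψ (g * h))) : ℝ) ≤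
          rk (φ g * φ h) (φ (g * h)) * finrank K U +
            (finrank K V + finrank K V) * rk (ψ g * ψ h) (ψ (g * h)) := by
        exact_mod_cast e
      have f1 := hη g hg h hh
      have f2 := h1 g hg h hh
      unfold dk at f1 f2 ⊢
      rw [div_le_iff₀ hn0] at f1
      rw [div_le_iff₀ hm0] at f2
      rw [finrank_linearMap, finrank_prod, div_le_iff₀ (by push_cast; positivity)]
      push_cast
      refine e'.trans ?_
      have g1 : (rk (φ g * φ h) (φ (g * h)) : ℝ) * finrank K U ≤ η * finrank K V * finrank K U := by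
        gcongr
      have g2 : ((finrank K V : ℝ) + finrank K V) * rk (ψ g * ψ h) (ψ (g * h)) ≤
          ((finrank K V : ℝ) + finrank K V) * (m * (η / 2) * finrank K U) := by
        gcongr
      refine (add_le_add g1 g2).trans (le_of_eq ?_)
      ring
    · intro g h
      have e := rk_T_lower (pad (φ g)) (pad (φ h)) (ψ g) (ψ h)
      rw [rk_pad, finrank_prod] at e
      have l1 := rk_le (φ g) (φ h)
      have l2 := rk_le (ψ g) (ψ h)
      have e' : ((finrank K V : ℝ) + finrank K V) * finrank K U ≤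
          rk (T (pad (φ g)) (ψ g)) (T (pad (φ h)) (ψ h)) +
          (((finrank K V : ℝ) + finrank K V - rk (φ g) (φ h)) * (finrank K U - rk (ψ g) (ψ h)) +
            rk (φ g) (φ h) * rk (ψ g) (ψ h)) := by
        have c1 : ((finrank K V + finrank K V - rk (φ g) (φ h) : ℕ) : ℝ) =
            (finrank K V : ℝ) + finrank K V - rk (φ g) (φ h) := by
          rw [Nat.cast_sub (by omega)]; push_cast; ring
        have c2 : ((finrank K U - rk (ψ g) (ψ h) : ℕ) : ℝ) =
            (finrank K U : ℝ) - rk (ψ g) (ψ h) := by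
          rw [Nat.cast_sub (by omega)]
        rw [← c1, ← c2]
        exact_mod_cast e
      have hd1 : dk (φ g) (φ h) ≤ 1 := by
        unfold dk
        rw [div_le_one hn0]
        exact_mod_cast l1
      have hb : (rk (φ g) (φ h) : ℝ) = dk (φ g) (φ h) * finrank K V := by
        unfold dk; field_simp
      have hc : (rk (ψ g) (ψ h) : ℝ) = dk (ψ g) (ψ h) * finrank K U := by
        unfold dk; field_simp
      have ht : (rk (T (pad (φ g)) (ψ g)) (T (pad (φ h)) (ψ h)) : ℝ) =
          dk (T (pad (φ g)) (ψ g)) (T (pad (φ h)) (ψ h)) *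
            (finrank K U * (finrank K V + finrank K V)) := by
        unfold dk
        rw [finrank_linearMap, finrank_prod]
        push_cast
        field_simp
      rw [hb, hc, ht] at e'
      have key : 1 - 2 * dk (T (pad (φ g)) (ψ g)) (T (pad (φ h)) (ψ h)) ≤
          (1 - 2 * dk (ψ g) (ψ h)) * (1 - dk (φ g) (φ h)) := by
        have hpos : (0 : ℝ) < finrank K V * finrank K U := by positivity
        have : (1 - 2 * dk (T (pad (φ g)) (ψ g)) (T (pad (φ h)) (ψ h))) *
            ((finrank K V : ℝ) * finrank K U) ≤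
            (1 - 2 * dk (ψ g) (ψ h)) * (1 - dk (φ g) (φ h)) * (finrank K V * finrank K U) := by
          nlinarith
        exact le_of_mul_le_mul_right this hpos
      calc _ ≤ (1 - 2 * dk (ψ g) (ψ h)) * (1 - dk (φ g) (φ h)) := key
        _ ≤ (1 - dk (φ g) (φ h)) ^ m * (1 - dk (φ g) (φ h)) :=
            mul_le_mul_of_nonneg_right (h2 g h) (by linarith)
        _ = _ := (pow_succ _ _).symm

/-- **Amplification to one half.** -/
theorem amplify {ε : ℝ} (hε : 0 < ε) (h : Approximable K ε G) : Approximable K (1 / 2) G := by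
  apply approximable_of_equiv
  intro F δ hδ
  -- choose the exponent
  set τ : ℝ := min (ε / 2) (1 / 2) with hτ
  have hτ0 : 0 < τ := lt_min (by positivity) (by norm_num)
  have hτ1 : τ ≤ 1 / 2 := min_le_right _ _
  obtain ⟨m, hm⟩ := exists_pow_lt_of_lt_one hδ (by linarith : 1 - τ < 1)
  set η : ℝ := min (ε / 2) (δ / (m + 1)) with hη
  have hη0 : 0 < η := lt_min (by positivity) (by positivity)
  obtain ⟨n, φ, hn, h1, h2⟩ := h F η hη0
  have hn' : 1 ≤ finrank K (Fin n → K) := by rwa [Module.finrank_fin_fun]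
  obtain ⟨U, i1, i2, i3, ψ, hU, h3, h4⟩ := exists_power hn' (fun g => toEquiv n (φ g)) η F
    (fun g hg k hk => by
      rw [← map_mul, dk_toEquiv]
      exact (h1 g hg k hk).le) m
  refine ⟨U, i1, i2, i3, ψ, hU, ?_, ?_⟩
  · intro g hg k hk
    refine (h3 g hg k hk).trans_lt ?_
    have : η ≤ δ / (m + 1) := min_le_right _ _
    rw [le_div_iff₀ (by positivity)] at this
    nlinarith
  · intro g hg k hk hne
    have e1 := h4 g k
    rw [dk_toEquiv] at e1
    have e2 := h2 g hg k hk hne
    have e3 : η ≤ ε / 2 := min_le_left _ _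
    have e4 : τ ≤ ε / 2 := min_le_left _ _
    have e5 : dRank (φ g) (φ k) ≤ 1 := by
      rw [← dk_toEquiv]
      unfold dk
      rw [div_le_one (by exact_mod_cast hn')]
      exact_mod_cast rk_le _ _
    have e6 : (1 - dRank (φ g) (φ k)) ^ m ≤ (1 - τ) ^ m :=
      pow_le_pow_left₀ (by linarith) (by linarith) m
    linarith

end

end Pool.Agent.R654.LS
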