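import Mathlib

/-!
# Fixed spaces of elementary abelian 2-groups
-/

set_option autoImplicit false
set_option linter.unusedSectionVars false

namespace Pool.Agent.R654.LS

open Module Finset

variable {K : Type*} [Field K] {W : Type*} [AddCommGroup W] [Module K W] [FiniteDimensional K W]
  {E : Type*} [CommGroup E] [Fintype E]

theorem finrank_add_le_of_disjoint {X Y Z : Submodule K W} (hX : X ≤ Z) (hY : Y ≤ Z)
    (h : Disjoint X Y) : finrank K X + finrank K Y ≤ finrank K Z := by
  have h1 := Submodule.finrank_sup_add_finrank_inf_eq X Y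
  rw [h.eq_bot, finrank_bot, add_zero] at h1
  rw [← h1]
  exact Submodule.finrank_mono (sup_le hX hY)

/-- the fixed space inside `U` -/
def fp (ρ : E →* Module.End K W) (U : Submodule K W) (g : E) : Submodule K W :=
  U ⊓ LinearMap.ker (ρ g - 1)

/-- the `-1` eigenspace inside `U` -/
def fm (ρ : E →* Module.End K W) (U : Submodule K W) (g : E) : Submodule K W :=
  U ⊓ LinearMap.ker (ρ g + 1)

theorem mem_fp (ρ : E →* Module.End K W) (U : Submodule K W) (g : E) (x : W) :
    x ∈ fp ρ U g ↔ x ∈ U ∧ ρ g x = x := by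
  simp [fp, sub_eq_zero]

theorem mem_fm (ρ : E →* Module.End K W) (U : Submodule K W) (g : E) (x : W) :
    x ∈ fm ρ U g ↔ x ∈ U ∧ ρ g x = -x := by
  simp [fm, add_eq_zero_iff_eq_neg]

/-- invariant submodules -/
def Inv (ρ : E →* Module.End K W) (U : Submodule K W) : Prop := ∀ g, ∀ x ∈ U, ρ g x ∈ U

section

variable (ρ : E →* Module.End K W) (h2 : (2 : K) ≠ 0) (hE : ∀ g : E, g * g = 1)

include hE in
theorem rho_rho (g : E) (x : W) : ρ g (ρ g x) = x := by
  have : ρ g * ρ g = 1 := by rw [← map_mul, hE, map_one]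
  exact LinearMap.congr_fun this x

theorem rho_comm (g h : E) (x : W) : ρ g (ρ h x) = ρ h (ρ g x) := by
  have : ρ g * ρ h = ρ h * ρ g := by rw [← map_mul, ← map_mul, mul_comm]
  exact LinearMap.congr_fun this x

include h2 hE in
theorem split (U : Submodule K W) (hU : Inv ρ U) (g : E) :
    finrank K U ≤ finrank K (fp ρ U g) + finrank K (fm ρ U g) := by
  have h : U ≤ fp ρ U g ⊔ fm ρ U g := by
    intro x hx
    have e : x = (2 : K)⁻¹ • (x + ρ g x) + (2 : K)⁻¹ • (x - ρ g x) := by
      rw [← smul_add, show x + ρ g x + (x - ρ g x) = (2 : K) • x by rw [two_smul]; abel, smul_smul,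
        inv_mul_cancel₀ h2, one_smul]
    rw [e]
    refine Submodule.add_mem_sup ?_ ?_
    · rw [mem_fp]
      refine ⟨U.smul_mem _ (U.add_mem hx (hU g x hx)), ?_⟩
      rw [map_smul, map_add, rho_rho ρ hE]
      congr 1
      abel
    · rw [mem_fm]
      refine ⟨U.smul_mem _ (U.sub_mem hx (hU g x hx)), ?_⟩
      rw [map_smul, map_sub, rho_rho ρ hE, ← smul_neg]
      congr 1
      abel
  exact (Submodule.finrank_mono h).trans (Submodule.finrank_add_le_finrank_add_finrank _ _)

include h2 in
theorem disj (U : Submodule K W) (g : E) (X Y : Submodule K W) (hX : X ≤ fp ρ U g)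
    (hY : Y ≤ fm ρ U g) : Disjoint X Y := by
  rw [Submodule.disjoint_def]
  intro x hx hy
  have h1 := ((mem_fp ρ U g x).1 (hX hx)).2
  have h3 := ((mem_fm ρ U g x).1 (hY hy)).2
  rw [h1] at h3
  have : (2 : K) • x = 0 := by
    rw [two_smul]
    nth_rewrite 1 [h3]
    simp
  exact (smul_eq_zero.1 this).resolve_left h2

theorem inv_fp (U : Submodule K W) (hU : Inv ρ U) (a : E) : Inv ρ (fp ρ U a) := by
  intro g x hx
  rw [mem_fp] at hx ⊢
  refine ⟨hU g x hx.1, ?_⟩
  rw [rho_comm, hx.2]

theorem inv_fm (U : Submodule K W) (hU : Inv ρ U) (a : E) : Inv ρ (fm ρ U a) := by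
  intro g x hx
  rw [mem_fm] at hx ⊢
  refine ⟨hU g x hx.1, ?_⟩
  rw [rho_comm, hx.2, map_neg]

include h2 hE in
theorem pair_le (U : Submodule K W) (hU : Inv ρ U) (a g : E) :
    2 * finrank K (fp ρ (fp ρ U a) g) + finrank K (fm ρ U a) ≤
      finrank K (fp ρ U g) + finrank K (fp ρ U (g * a)) := by
  have e1 : finrank K (fp ρ (fp ρ U a) g) + finrank K (fp ρ (fm ρ U a) g) ≤
      finrank K (fp ρ U g) := by
    apply finrank_add_le_of_disjoint
    · intro x hx
      rw [mem_fp, mem_fp] at hx
      rw [mem_fp]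
      exact ⟨hx.1.1, hx.2⟩
    · intro x hx
      rw [mem_fp, mem_fm] at hx
      rw [mem_fp]
      exact ⟨hx.1.1, hx.2⟩
    · exact disj ρ h2 U a _ _ inf_le_left inf_le_left
  have e2 : finrank K (fp ρ (fp ρ U a) g) + finrank K (fm ρ (fm ρ U a) g) ≤
      finrank K (fp ρ U (g * a)) := by
    apply finrank_add_le_of_disjoint
    · intro x hx
      rw [mem_fp, mem_fp] at hx
      rw [mem_fp]
      refine ⟨hx.1.1, ?_⟩
      rw [map_mul, Module.End.mul_apply, hx.1.2, hx.2]
    · intro x hx
      rw [mem_fm, mem_fm] at hx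
      rw [mem_fp]
      refine ⟨hx.1.1, ?_⟩
      rw [map_mul, Module.End.mul_apply, hx.1.2, map_neg, hx.2, neg_neg]
    · exact disj ρ h2 U a _ _ inf_le_left inf_le_left
  have e3 := split ρ h2 hE (fm ρ U a) (inv_fm ρ U hU a) g
  omega

include h2 hE in
theorem potential (U : Submodule K W) (hU : Inv ρ U) (a : E) :
    2 * ∑ g, finrank K (fp ρ (fp ρ U a) g) + Fintype.card E * finrank K U ≤
      2 * ∑ g, finrank K (fp ρ U g) + Fintype.card E * finrank K (fp ρ U a) := by
  have h := Finset.sum_le_sum fun (g : E) (_ : g ∈ univ) => pair_le ρ h2 hE U hU a g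
  have hs : ∑ x, finrank K (fp ρ U (x * a)) = ∑ x, finrank K (fp ρ U x) :=
    Equiv.sum_comp (Equiv.mulRight a) (fun g => finrank K (fp ρ U g))
  rw [sum_add_distrib, sum_add_distrib, ← mul_sum, sum_const, card_univ, smul_eq_mul, hs] at h
  have h3 := split ρ h2 hE U hU a
  have h4 : Fintype.card E * finrank K U ≤
      Fintype.card E * (finrank K (fp ρ U a) + finrank K (fm ρ U a)) := Nat.mul_le_mul_left _ h3
  rw [mul_add] at h4
  omega

include h2 hE in
theorem avg_ne_two :
    Fintype.card E * finrank K W ≤ 2 * ∑ g, finrank K (fp ρ (⊤ : Submodule K W) g) := by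
  classical
  have key : ∀ s : Finset E, ∃ U : Submodule K W, Inv ρ U ∧ (∀ a ∈ s, U ≤ fp ρ ⊤ a) ∧
      2 * ∑ g, finrank K (fp ρ U g) + Fintype.card E * finrank K (⊤ : Submodule K W) ≤
      2 * ∑ g, finrank K (fp ρ (⊤ : Submodule K W) g) + Fintype.card E * finrank K U := by
    intro s
    induction s using Finset.induction_on with
    | empty => exact ⟨⊤, fun _ _ _ => trivial, by simp, le_rfl⟩
    | insert a s _ ih =>
      obtain ⟨U, hU, hs, h⟩ := ih
      refine ⟨fp ρ U a, inv_fp ρ U hU a, ?_, ?_⟩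
      · intro b hb
        rcases Finset.mem_insert.1 hb with rfl | hb
        · exact inf_le_inf_right _ le_top
        · exact inf_le_left.trans (hs b hb)
      · have := potential ρ h2 hE U hU a
        omega
  obtain ⟨U, hU, hs, h⟩ := key univ
  have h3 : ∀ g, fp ρ U g = U := fun g =>
    le_antisymm inf_le_left (le_inf le_rfl ((hs g (mem_univ g)).trans inf_le_right))
  have h5 : ∑ g, finrank K (fp ρ U g) = Fintype.card E * finrank K U := by
    rw [sum_congr rfl fun g _ => by rw [h3 g], sum_const, card_univ, smul_eq_mul]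
  rw [h5, finrank_top] at h
  omega

end

/-- the average dimension of the fixed space of an element of an elementary abelian 2-group is at
least half of the dimension -/
theorem avg (ρ : E →* Module.End K W) (hE : ∀ g : E, g * g = 1) :
    Fintype.card E * finrank K W ≤ 2 * ∑ g, finrank K (fp ρ (⊤ : Submodule K W) g) := by
  by_cases h2 : (2 : K) ≠ 0
  · exact avg_ne_two ρ h2 hE
  · push Not at h2
    have h : ∀ g, finrank K W ≤ 2 * finrank K (fp ρ (⊤ : Submodule K W) g) := by
      intro g
      have e1 := LinearMap.finrank_range_add_finrank_ker (ρ g - 1)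
      have e2 : LinearMap.range (ρ g - 1) ≤ LinearMap.ker (ρ g - 1) := by
        rintro _ ⟨x, rfl⟩
        rw [LinearMap.mem_ker]
        simp only [LinearMap.sub_apply, Module.End.one_apply, map_sub, rho_rho ρ hE]
        have : (2 : K) • (x - ρ g x) = 0 := by rw [h2, zero_smul]
        rw [two_smul] at this
        rw [← this]
        abel
      have e3 := Submodule.finrank_mono e2
      have e4 : fp ρ (⊤ : Submodule K W) g = LinearMap.ker (ρ g - 1) := top_inf_eq _
      rw [e4]
      omega
    calc Fintype.card E * finrank K W = ∑ _g : E, finrank K W := by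
          rw [sum_const, card_univ, smul_eq_mul]
      _ ≤ ∑ g, 2 * finrank K (fp ρ (⊤ : Submodule K W) g) := sum_le_sum fun g _ => h g
      _ = _ := by rw [mul_sum]

end Pool.Agent.R654.LS
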