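import Mathlib

/-!
# Rank distances under tensor powers
-/

set_option autoImplicit false

namespace Pool.Agent.R654.LS

open Module

variable {K : Type*} [Field K]
variable {V W : Type*} [AddCommGroup V] [Module K V] [FiniteDimensional K V]
  [AddCommGroup W] [Module K W] [FiniteDimensional K W]

/-- maps with range in `Q` and kernel containing `P` -/
def sandwich (P : Submodule K W) (Q : Submodule K V) : Submodule K (W →ₗ[K] V) where
  carrier := {X | (∀ w, X w ∈ Q) ∧ ∀ w ∈ P, X w = 0}
  add_mem' := by
    rintro X Y ⟨h1, h2⟩ ⟨h3, h4⟩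
    exact ⟨fun w => Q.add_mem (h1 w) (h3 w), fun w hw => by simp [h2 w hw, h4 w hw]⟩
  zero_mem' := ⟨fun w => by simp, fun w _ => by simp⟩
  smul_mem' := by
    rintro c X ⟨h1, h2⟩
    exact ⟨fun w => Q.smul_mem c (h1 w), fun w hw => by simp [h2 w hw]⟩

theorem finrank_sandwich_le (P : Submodule K W) (Q : Submodule K V) :
    finrank K (sandwich P Q) ≤ (finrank K W - finrank K P) * finrank K Q := by
  let f : sandwich P Q →ₗ[K] ((W ⧸ P) →ₗ[K] Q) :=
    { toFun := fun X => P.liftQ (X.1.codRestrict Q X.2.1) (by
        intro w hw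
        rw [LinearMap.mem_ker]
        exact Subtype.ext (X.2.2 w hw))
      map_add' := by
        intro X Y
        ext w
        simp
      map_smul' := by
        intro c X
        ext w
        simp }
  have hf : Function.Injective f := by
    intro X Y h
    apply Subtype.ext
    apply LinearMap.ext
    intro w
    have h1 := LinearMap.congr_fun h (Submodule.Quotient.mk w)
    have h2 := congrArg Subtype.val h1
    simpa [f] using h2
  calc finrank K (sandwich P Q) ≤ finrank K ((W ⧸ P) →ₗ[K] Q) := LinearMap.finrank_le_finrank_of_injective hf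
    _ = finrank K (W ⧸ P) * finrank K Q := finrank_linearMap K K (W ⧸ P) Q
    _ = _ := by
      have := Submodule.finrank_quotient_add_finrank P
      congr 1
      omega

/-- the space of intertwiners -/
def inter (N : V →ₗ[K] V) (M : W →ₗ[K] W) : Submodule K (W →ₗ[K] V) where
  carrier := {X | N ∘ₗ X = X ∘ₗ M}
  add_mem' := by
    rintro X Y hX hY
    simp only [Set.mem_ofPred_eq] at *
    rw [LinearMap.comp_add, LinearMap.add_comp, hX, hY]
  zero_mem' := by simp
  smul_mem' := by
    rintro c X hX
    simp only [Set.mem_ofPred_eq] at *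
    rw [LinearMap.comp_smul, LinearMap.smul_comp, hX]

/-- **Key inequality.** -/
theorem finrank_inter_le (N : V →ₗ[K] V) (M : W →ₗ[K] W) :
    finrank K (inter N M) ≤
      (finrank K V - finrank K (LinearMap.range N)) * (finrank K W - finrank K (LinearMap.range M)) +
        finrank K (LinearMap.range N) * finrank K (LinearMap.range M) := by
  let Φ : inter N M →ₗ[K] (W →ₗ[K] V) :=
    { toFun := fun X => N ∘ₗ X.1
      map_add' := by intro X Y; simp [LinearMap.comp_add]
      map_smul' := by intro c X; simp [LinearMap.comp_smul] }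
  have h1 := LinearMap.finrank_range_add_finrank_ker Φ
  have hN := LinearMap.finrank_range_add_finrank_ker N
  have hM := LinearMap.finrank_range_add_finrank_ker M
  have h2 : finrank K (LinearMap.range Φ) ≤ finrank K (sandwich (LinearMap.ker M) (LinearMap.range N)) := by
    apply Submodule.finrank_mono
    rintro Y ⟨X, rfl⟩
    refine ⟨fun w => ⟨X.1 w, rfl⟩, fun w hw => ?_⟩
    have h3 : N ∘ₗ X.1 = X.1 ∘ₗ M := X.2
    show (N ∘ₗ X.1) w = 0
    rw [h3, LinearMap.comp_apply, LinearMap.mem_ker.1 hw, map_zero]
  have h3 : finrank K (LinearMap.ker Φ) ≤ finrank K (sandwich (LinearMap.range M) (LinearMap.ker N)) := by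
    rw [← Submodule.finrank_map_subtype_eq (inter N M) (LinearMap.ker Φ)]
    apply Submodule.finrank_mono
    rintro Y ⟨X, hX, rfl⟩
    have hX' : N ∘ₗ X.1 = 0 := LinearMap.mem_ker.1 hX
    have h3 : N ∘ₗ X.1 = X.1 ∘ₗ M := X.2
    refine ⟨fun w => ?_, fun w hw => ?_⟩
    · rw [LinearMap.mem_ker]
      exact LinearMap.congr_fun hX' w
    · obtain ⟨v, rfl⟩ := hw
      rw [hX'] at h3
      exact (LinearMap.congr_fun h3 v).symm
  have h4 := finrank_sandwich_le (LinearMap.ker M) (LinearMap.range N)
  have h5 := finrank_sandwich_le (LinearMap.range M) (LinearMap.ker N)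
  have e1 : finrank K W - finrank K (LinearMap.ker M) = finrank K (LinearMap.range M) := by omega
  have e2 : finrank K (LinearMap.ker N) = finrank K V - finrank K (LinearMap.range N) := by omega
  rw [e1] at h4
  rw [e2] at h5
  rw [← h1]
  calc finrank K (LinearMap.range Φ) + finrank K (LinearMap.ker Φ)
      ≤ finrank K (LinearMap.range M) * finrank K (LinearMap.range N) +
        (finrank K W - finrank K (LinearMap.range M)) * (finrank K V - finrank K (LinearMap.range N)) := by
        gcongr
        · exact h2.trans h4
        · exact h3.trans h5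
    _ = _ := by ring

end Pool.Agent.R654.LS
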