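import Pool.Agent.R654.LS.Amp
import Pool.Agent.R654.LS.Avg

/-!
# The infinite elementary abelian 2-group
-/

set_option autoImplicit false
set_option linter.unusedSectionVars false

namespace Pool.Agent.R654.LS

open Module Finset

universe u

variable {K : Type u} [Field K]

/-- the countably infinite elementary abelian 2-group -/
abbrev G0 : Type := Multiplicative (ℕ →₀ ZMod 2)

/-- the elementary abelian 2-group of rank `k` -/
abbrev Ek (k : ℕ) : Type := Multiplicative (Fin k → ZMod 2)

/-- extension by zero -/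
noncomputable def extK (k : ℕ) : Ek k →* G0 :=
  AddMonoidHom.toMultiplicative
    ((Finsupp.embDomain.addMonoidHom (M := ZMod 2) (Fin.valEmbedding (n := k))).comp
      (Finsupp.linearEquivFunOnFinite ℕ (ZMod 2) (Fin k)).symm.toLinearMap.toAddMonoidHom)

theorem extK_injective (k : ℕ) : Function.Injective (extK k) := by
  intro a b h
  have h1 : Finsupp.embDomain (Fin.valEmbedding (n := k))
      ((Finsupp.linearEquivFunOnFinite ℕ (ZMod 2) (Fin k)).symm a.toAdd) =
      Finsupp.embDomain (Fin.valEmbedding (n := k))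
      ((Finsupp.linearEquivFunOnFinite ℕ (ZMod 2) (Fin k)).symm b.toAdd) := h
  have h2 := Finsupp.embDomain_injective _ h1
  exact (Finsupp.linearEquivFunOnFinite ℕ (ZMod 2) (Fin k)).symm.injective h2

theorem finrank_le_iInf_ker {V : Type*} [AddCommGroup V] [Module K V] [FiniteDimensional K V]
    {ι : Type*} [DecidableEq ι] (s : Finset ι) (f : ι → V →ₗ[K] V) :
    finrank K V ≤ finrank K (⨅ i ∈ s, LinearMap.ker (f i) : Submodule K V) +
      ∑ i ∈ s, finrank K (LinearMap.range (f i)) := by
  induction s using Finset.induction_on with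
  | empty =>
    have h : (⨅ i ∈ (∅ : Finset ι), LinearMap.ker (f i) : Submodule K V) = ⊤ := by
      simp only [Finset.notMem_empty, iInf_false, iInf_top]
    rw [h, finrank_top]
    exact Nat.le_add_right _ _
  | insert a s ha ih =>
    rw [Finset.iInf_insert, sum_insert ha]
    have h1 := Submodule.finrank_sup_add_finrank_inf_eq (LinearMap.ker (f a))
      (⨅ i ∈ s, LinearMap.ker (f i) : Submodule K V)
    have h2 : finrank K (LinearMap.ker (f a) ⊔
      (⨅ i ∈ s, LinearMap.ker (f i) : Submodule K V) : Submodule K V) ≤ finrank K V :=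
      Submodule.finrank_le _
    have h3 := LinearMap.finrank_range_add_finrank_ker (f a)
    omega

/-- **The upper bound.** -/
theorem not_approximable {ε : ℝ} (hε : 1 / 2 < ε) : ¬ Approximable K ε G0 := by
  classical
  intro h
  -- choose the rank
  obtain ⟨k, hk⟩ := exists_nat_gt (8 / (2 * ε - 1))
  set N : ℕ := Fintype.card (Ek k) with hN
  have hNk : N = 2 ^ k := by
    rw [hN, Fintype.card_multiplicative, Fintype.card_fun, ZMod.card, Fintype.card_fin]
  have hkN : k < N := by rw [hNk]; exact Nat.lt_two_pow_self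
  have hN0 : (0 : ℝ) < N := by exact_mod_cast (by omega : 0 < N)
  have hN1 : (1 : ℝ) ≤ N := by exact_mod_cast (by omega : 1 ≤ N)
  have h8 : 8 ≤ (2 * ε - 1) * N := by
    have h1 : 8 / (2 * ε - 1) < N := hk.trans (by exact_mod_cast hkN)
    rw [div_lt_iff₀ (by linarith)] at h1
    linarith
  set δ : ℝ := 1 / (4 * (N : ℝ) ^ 3) with hδ
  have hδ0 : 0 < δ := by positivity
  obtain ⟨n, φ, hn, h1, h2⟩ := h (univ.image (extK k)) δ hδ0
  have hn0 : (0 : ℝ) < n := by exact_mod_cast hn
  let a : Ek k → ((Fin n → K) ≃ₗ[K] (Fin n → K)) := fun g => toEquiv n (φ (extK k g))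
  have hmem : ∀ g, extK k g ∈ univ.image (extK k) := fun g => mem_image_of_mem _ (mem_univ g)
  have a1 : ∀ g h, (rk (a g * a h) (a (g * h)) : ℝ) ≤ δ * n := by
    intro g h
    have e := h1 _ (hmem g) _ (hmem h)
    rw [← map_mul, ← dk_toEquiv, map_mul] at e
    unfold dk at e
    rw [Module.finrank_fin_fun, div_lt_iff₀ hn0] at e
    exact e.le
  have a2 : ∀ g, g ≠ 1 → (ε - δ) * n ≤ (rk (a g) (a 1) : ℝ) := by
    intro g hg
    have e := h2 _ (hmem g) _ (hmem 1) ((extK_injective k).ne hg)
    rw [← dk_toEquiv] at e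
    unfold dk at e
    rw [Module.finrank_fin_fun, lt_div_iff₀ hn0] at e
    exact e.le
  -- the good subspace
  let f : Ek k × Ek k → ((Fin n → K) →ₗ[K] (Fin n → K)) := fun p =>
    (a p.1 * a p.2).toLinearMap - (a (p.1 * p.2)).toLinearMap
  let W : Submodule K (Fin n → K) := ⨅ p ∈ (univ : Finset (Ek k × Ek k)), LinearMap.ker (f p)
  have hW : ∀ x, x ∈ W ↔ ∀ g h, a g (a h x) = a (g * h) x := by
    intro x
    simp only [W, Submodule.mem_iInf, mem_univ, true_implies, LinearMap.mem_ker, f,
      LinearMap.sub_apply, sub_eq_zero, Prod.forall]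
    rfl
  have hinv : ∀ g, ∀ x ∈ W, (a g) x ∈ W := by
    intro g x hx
    rw [hW] at hx ⊢
    intro p q
    rw [hx q g, hx p (q * g), hx (p * q) g, mul_assoc]
  have hone : ∀ x ∈ W, a 1 x = x := by
    intro x hx
    rw [hW] at hx
    have := hx 1 1
    rw [mul_one] at this
    exact (a 1).injective this
  let ρ : Ek k →* Module.End K W :=
    { toFun := fun g => (a g).toLinearMap.restrict (hinv g)
      map_one' := by
        ext x : 2
        exact hone x.1 x.2
      map_mul' := by
        intro g h
        ext x : 2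
        exact (((hW x.1).1 x.2) g h).symm }
  have hρ : ∀ g (x : W), ((ρ g x : W) : Fin n → K) = a g x.1 := fun g x => rfl
  have hE : ∀ g : Ek k, g * g = 1 := by
    intro g
    apply Multiplicative.toAdd.injective
    funext i
    exact CharTwo.add_self_eq_zero _
  have A := avg ρ hE
  have w1 := finrank_le_iInf_ker (univ : Finset (Ek k × Ek k)) f
  have w2 : (n : ℝ) ≤ finrank K W + (N : ℝ) ^ 2 * (δ * n) := by
    rw [Module.finrank_fin_fun] at w1
    have w3 : (n : ℝ) ≤ finrank K W + ∑ p : Ek k × Ek k, (finrank K (LinearMap.range (f p)) : ℝ) := by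
      exact_mod_cast w1
    have w4 : ∑ p : Ek k × Ek k, (finrank K (LinearMap.range (f p)) : ℝ) ≤
        ∑ _p : Ek k × Ek k, δ * n := sum_le_sum fun p _ => a1 p.1 p.2
    rw [sum_const, card_univ, Fintype.card_prod, nsmul_eq_mul, ← hN] at w4
    push_cast at w4
    calc (n : ℝ) ≤ _ := w3
      _ ≤ _ := by linarith
  have w5 : finrank K W ≤ n := by
    have := Submodule.finrank_le W
    rwa [Module.finrank_fin_fun] at this
  have b1 : ∀ g, g ≠ 1 → (finrank K (fp ρ (⊤ : Submodule K W) g) : ℝ) ≤ (1 - ε + δ) * n := by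
    intro g hg
    have c1 : finrank K (fp ρ (⊤ : Submodule K W) g) ≤
        finrank K (LinearMap.ker ((a g).toLinearMap - (a 1).toLinearMap)) := by
      rw [← Submodule.finrank_map_subtype_eq W (fp ρ (⊤ : Submodule K W) g)]
      apply Submodule.finrank_mono
      rintro _ ⟨x, hx, rfl⟩
      have hx' := ((mem_fp ρ ⊤ g x).1 hx).2
      rw [LinearMap.mem_ker, LinearMap.sub_apply, sub_eq_zero]
      have e1 : a g x.1 = x.1 := by rw [← hρ, hx']
      have e2 : a 1 x.1 = x.1 := hone x.1 x.2
      exact e1.trans e2.symm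
    have c2 := rk_add_ker (a g) (a 1)
    rw [Module.finrank_fin_fun] at c2
    have c3 := a2 g hg
    have c4 : (rk (a g) (a 1) : ℝ) + finrank K (LinearMap.ker ((a g).toLinearMap - (a 1).toLinearMap)) = n := by
      exact_mod_cast c2
    have c5 : (finrank K (fp ρ (⊤ : Submodule K W) g) : ℝ) ≤
        finrank K (LinearMap.ker ((a g).toLinearMap - (a 1).toLinearMap)) := by exact_mod_cast c1
    linarith
  have b2 : (∑ g, (finrank K (fp ρ (⊤ : Submodule K W) g) : ℝ)) ≤ n + (N - 1) * ((1 - ε + δ) * n) := by
    rw [← Finset.add_sum_erase univ _ (mem_univ (1 : Ek k))]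
    have c1 : (finrank K (fp ρ (⊤ : Submodule K W) 1) : ℝ) ≤ n := by
      have : finrank K (fp ρ (⊤ : Submodule K W) 1) ≤ n := (Submodule.finrank_le _).trans w5
      exact_mod_cast this
    have c2 : ∑ g ∈ univ.erase (1 : Ek k), (finrank K (fp ρ (⊤ : Submodule K W) g) : ℝ) ≤
        ∑ _g ∈ univ.erase (1 : Ek k), (1 - ε + δ) * n :=
      sum_le_sum fun g hg => b1 g (mem_erase.1 hg).1
    rw [sum_const, nsmul_eq_mul, card_erase_of_mem (mem_univ _), card_univ, ← hN,
      Nat.cast_sub (by omega), Nat.cast_one] at c2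
    linarith
  have A' : (N : ℝ) * finrank K W ≤ 2 * ∑ g, (finrank K (fp ρ (⊤ : Submodule K W) g) : ℝ) := by
    exact_mod_cast A
  have hεδ : 0 ≤ 1 - ε + δ := by
    by_contra hneg
    push Not at hneg
    have g1 : Nontrivial (Ek k) := by
      apply Fintype.one_lt_card_iff_nontrivial.1
      have : 8 / (2 * ε - 1) > 0 := by
        apply div_pos (by norm_num) (by linarith)
      have hk0 : (0 : ℝ) < k := this.trans hk
      have hk0' : 0 < k := by exact_mod_cast hk0
      rw [← hN]
      omega
    obtain ⟨g, hg⟩ := exists_ne (1 : Ek k)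
    have e1 := b1 g hg
    have e2 : (0 : ℝ) ≤ finrank K (fp ρ (⊤ : Submodule K W) g) := Nat.cast_nonneg _
    nlinarith
  have hδN : (N : ℝ) ^ 3 * δ = 1 / 4 := by
    rw [hδ]; field_simp
  have hδN1 : (N : ℝ) * δ ≤ 1 / 4 := by
    have : (N : ℝ) * δ ≤ (N : ℝ) ^ 3 * δ := by
      apply mul_le_mul_of_nonneg_right _ hδ0.le
      nlinarith [sq_nonneg ((N : ℝ) - 1), mul_nonneg hN0.le (mul_self_nonneg ((N : ℝ) - 1))]
    linarith
  -- combine
  have f1 : (N : ℝ) * (n - (N : ℝ) ^ 2 * (δ * n)) ≤ 2 * (n + (N - 1) * ((1 - ε + δ) * n)) := by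
    calc (N : ℝ) * (n - (N : ℝ) ^ 2 * (δ * n)) ≤ N * finrank K W := by
          apply mul_le_mul_of_nonneg_left _ hN0.le
          linarith
      _ ≤ _ := A'
      _ ≤ _ := by linarith
  have f2 : (N : ℝ) - (N : ℝ) ^ 3 * δ ≤ 2 * (1 + (N - 1) * (1 - ε + δ)) := by
    have : ((N : ℝ) - (N : ℝ) ^ 3 * δ) * n ≤ (2 * (1 + (N - 1) * (1 - ε + δ))) * n := by
      nlinarith
    exact le_of_mul_le_mul_right this hn0
  nlinarith

/-- **The lower bound.** -/
theorem approximable_G0 : Approximable K (1 / 2) G0 := by
  classical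
  apply approximable_of_equiv
  intro F δ hδ
  -- a bound for the supports
  let s : Finset ℕ := F.sup fun g => (Multiplicative.toAdd g).support
  let X : Type := (s → ZMod 2)
  let π : G0 → X := fun g i => Multiplicative.toAdd g i.1
  have hπ : ∀ g h, π (g * h) = π g + π h := fun g h => rfl
  have hinj : ∀ g ∈ F, ∀ h ∈ F, π g = π h → g = h := by
    intro g hg h hh e
    apply Multiplicative.toAdd.injective
    ext i
    by_cases hi : i ∈ s
    · exact congrFun e ⟨i, hi⟩
    · have h1 : ∀ g ∈ F, Multiplicative.toAdd g i = 0 := by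
        intro g hg
        by_contra hne
        exact hi (Finset.le_sup (f := fun g : G0 => (Multiplicative.toAdd g).support) hg
          (Finsupp.mem_support_iff.2 hne))
      rw [h1 g hg, h1 h hh]
  let φ : G0 → ((X → K) ≃ₗ[K] (X → K)) := fun g =>
    LinearEquiv.funCongrLeft K K (Equiv.addRight (π g))
  have hφ : ∀ g (f : X → K) x, φ g f x = f (x + π g) := fun g f x => rfl
  refine ⟨X → K, inferInstance, inferInstance, inferInstance, φ, ?_, ?_, ?_⟩
  · rw [Module.finrank_fintype_fun_eq_card]
    exact Fintype.card_pos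
  · intro g _ h _
    have : φ g * φ h = φ (g * h) := by
      apply LinearEquiv.ext
      intro f
      funext x
      show φ g (φ h f) x = _
      rw [hφ, hφ, hφ, hπ, add_assoc]
    rw [this]
    unfold dk
    rw [rk_self]
    simpa using hδ
  · intro g hg h hh hne
    have hne' : π g ≠ π h := fun e => hne (hinj g hg h hh e)
    obtain ⟨j, hj⟩ := Function.ne_iff.1 hne'
    have key : ∀ c : ZMod 2, finrank K (LinearMap.ker ((φ g).toLinearMap - (φ h).toLinearMap)) ≤
        Fintype.card {x : X // x j = c} := by
      intro c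
      let r : LinearMap.ker ((φ g).toLinearMap - (φ h).toLinearMap) →ₗ[K] ({x : X // x j = c} → K) :=
        { toFun := fun f x => f.1 x.1
          map_add' := fun _ _ => rfl
          map_smul' := fun _ _ => rfl }
      have hr : Function.Injective r := by
        rw [← LinearMap.ker_eq_bot, LinearMap.ker_eq_bot']
        intro f hf
        apply Subtype.ext
        funext x
        have hf1 : ∀ y, f.1 (y + π g) = f.1 (y + π h) := by
          intro y
          have := f.2
          rw [LinearMap.mem_ker, LinearMap.sub_apply, sub_eq_zero] at this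
          exact congrFun this y
        by_cases hx : x j = c
        · exact congrFun hf ⟨x, hx⟩
        · have e1 : f.1 x = f.1 (x - π g + π h) := by
            have := hf1 (x - π g)
            rwa [sub_add_cancel] at this
          rw [e1]
          have e2 : (x - π g + π h) j = c := by
            show x j - π g j + π h j = c
            generalize x j = p at *
            generalize π g j = q at *
            generalize π h j = r at *
            clear * - hx hj
            revert p q r c
            decide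
          exact congrFun hf ⟨_, e2⟩
      have := LinearMap.finrank_le_finrank_of_injective hr
      rwa [Module.finrank_fintype_fun_eq_card] at this
    have hsum : Fintype.card {x : X // x j = 0} + Fintype.card {x : X // x j = 1} ≤
        Fintype.card X := by
      rw [Fintype.card_subtype, Fintype.card_subtype, ← card_union_of_disjoint]
      · exact card_le_univ _
      · rw [disjoint_filter]
        intro x _ h1 h2
        rw [h1] at h2
        exact absurd h2 (by decide)
    have k0 := key 0
    have k1 := key 1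
    have k2 := rk_add_ker (φ g) (φ h)
    have hX : finrank K (X → K) = Fintype.card X := Module.finrank_fintype_fun_eq_card K
    have hX0 : 0 < Fintype.card X := Fintype.card_pos
    have k3 : finrank K (X → K) ≤ 2 * rk (φ g) (φ h) := by omega
    have k4 : (finrank K (X → K) : ℝ) ≤ 2 * rk (φ g) (φ h) := by exact_mod_cast k3
    have k5 : (0 : ℝ) < finrank K (X → K) := by rw [hX]; exact_mod_cast hX0
    unfold dk
    rw [lt_div_iff₀ k5]
    nlinarith

end Pool.Agent.R654.LS
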