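import Pool.Agent.R654.LS.Core

/-!
# Rank distances under tensor powers, second part
-/

set_option autoImplicit false

namespace Pool.Agent.R654.LS

open Module

universe u v
set_option linter.unusedSectionVars false

variable {K : Type u} [Field K]

section basic

variable {V W : Type*} [AddCommGroup V] [Module K V] [FiniteDimensional K V]
  [AddCommGroup W] [Module K W] [FiniteDimensional K W]

/-- the rank of the difference of two linear automorphisms -/
noncomputable def rk (a b : V ≃ₗ[K] V) : ℕ :=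
  finrank K (LinearMap.range (a.toLinearMap - b.toLinearMap))

theorem rk_le (a b : V ≃ₗ[K] V) : rk a b ≤ finrank K V := Submodule.finrank_le _

theorem rk_add_ker (a b : V ≃ₗ[K] V) :
    rk a b + finrank K (LinearMap.ker (a.toLinearMap - b.toLinearMap)) = finrank K V :=
  LinearMap.finrank_range_add_finrank_ker _

theorem finrank_range_equiv_comp (e : V ≃ₗ[K] V) (f : W →ₗ[K] V) :
    finrank K (LinearMap.range (e.toLinearMap ∘ₗ f)) = finrank K (LinearMap.range f) := by
  rw [LinearMap.range_comp]
  exact LinearEquiv.finrank_map_eq e _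

/-- the two sided action on the space of linear maps -/
noncomputable def T (a : V ≃ₗ[K] V) (b : W ≃ₗ[K] W) : (W →ₗ[K] V) ≃ₗ[K] (W →ₗ[K] V) :=
  LinearEquiv.arrowCongr b a

theorem T_apply (a : V ≃ₗ[K] V) (b : W ≃ₗ[K] W) (X : W →ₗ[K] V) (w : W) :
    T a b X w = a (X (b.symm w)) := rfl

theorem T_mul (a a' : V ≃ₗ[K] V) (b b' : W ≃ₗ[K] W) : T (a * a') (b * b') = T a b * T a' b' := by
  ext X w
  rfl

theorem rk_T_lower (a a' : V ≃ₗ[K] V) (b b' : W ≃ₗ[K] W) :
    finrank K V * finrank K W ≤ rk (T a b) (T a' b') +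
      ((finrank K V - rk a a') * (finrank K W - rk b b') + rk a a' * rk b b') := by
  have h0 := rk_add_ker (T a b) (T a' b')
  rw [finrank_linearMap] at h0
  have key : finrank K (LinearMap.ker ((T a b).toLinearMap - (T a' b').toLinearMap)) ≤
      finrank K (inter ((a'.symm.toLinearMap ∘ₗ (a.toLinearMap - a'.toLinearMap)))
        ((b'.symm.toLinearMap ∘ₗ (b.toLinearMap - b'.toLinearMap)))) := by
    apply Submodule.finrank_mono
    intro X hX
    rw [LinearMap.mem_ker, LinearMap.sub_apply, sub_eq_zero] at hX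
    have hX' : ∀ w, a (X (b.symm w)) = a' (X (b'.symm w)) := fun w => LinearMap.congr_fun hX w
    show _ ∘ₗ X = X ∘ₗ _
    ext w
    have h1 := hX' (b w)
    rw [LinearEquiv.symm_apply_apply] at h1
    simp only [LinearMap.comp_apply, LinearMap.sub_apply, LinearEquiv.coe_coe, map_sub,
      LinearEquiv.symm_apply_apply, h1]
  have h2 := finrank_inter_le ((a'.symm.toLinearMap ∘ₗ (a.toLinearMap - a'.toLinearMap)))
        ((b'.symm.toLinearMap ∘ₗ (b.toLinearMap - b'.toLinearMap)))
  rw [finrank_range_equiv_comp, finrank_range_equiv_comp] at h2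
  have h3 : finrank K W * finrank K V = finrank K V * finrank K W := mul_comm _ _
  change _ ≤ _ + ((finrank K V - finrank K (LinearMap.range (a.toLinearMap - a'.toLinearMap))) * (finrank K W - finrank K (LinearMap.range (b.toLinearMap - b'.toLinearMap))) + finrank K (LinearMap.range (a.toLinearMap - a'.toLinearMap)) * finrank K (LinearMap.range (b.toLinearMap - b'.toLinearMap)))
  omega

theorem rk_symm_le (b b' : W ≃ₗ[K] W) : rk b.symm b'.symm ≤ rk b b' := by
  have h : b.symm.toLinearMap - b'.symm.toLinearMap =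
      b.symm.toLinearMap ∘ₗ ((b'.toLinearMap - b.toLinearMap) ∘ₗ b'.symm.toLinearMap) := by
    ext w
    simp
  unfold rk
  rw [h, finrank_range_equiv_comp]
  have h2 : LinearMap.range ((b'.toLinearMap - b.toLinearMap) ∘ₗ b'.symm.toLinearMap) ≤
      LinearMap.range (b.toLinearMap - b'.toLinearMap) := by
    rintro _ ⟨w, rfl⟩
    refine ⟨-(b'.symm w), ?_⟩
    simp
    abel
  exact Submodule.finrank_mono h2

theorem rk_T_upper (a a' : V ≃ₗ[K] V) (b b' : W ≃ₗ[K] W) :
    rk (T a b) (T a' b') ≤ rk a a' * finrank K W + finrank K V * rk b b' := by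
  have h1 : LinearMap.range ((T a b).toLinearMap - (T a' b').toLinearMap) ≤
      sandwich ⊥ (LinearMap.range (a.toLinearMap - a'.toLinearMap)) ⊔
        sandwich (LinearMap.ker (b.symm.toLinearMap - b'.symm.toLinearMap)) ⊤ := by
    rintro _ ⟨X, rfl⟩
    have e : ((T a b).toLinearMap - (T a' b').toLinearMap) X =
        ((a.toLinearMap - a'.toLinearMap) ∘ₗ X ∘ₗ b.symm.toLinearMap) +
        (a'.toLinearMap ∘ₗ X ∘ₗ (b.symm.toLinearMap - b'.symm.toLinearMap)) := by
      ext w
      simp [T_apply]
    rw [e]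
    refine Submodule.add_mem_sup ⟨fun w => ⟨_, rfl⟩, fun w hw => ?_⟩ ⟨fun w => trivial, fun w hw => ?_⟩
    · rw [Submodule.mem_bot] at hw
      rw [hw, map_zero]
    · rw [LinearMap.comp_apply, LinearMap.comp_apply, LinearMap.mem_ker.1 hw, map_zero, map_zero]
  have h2 := (Submodule.finrank_mono h1).trans (Submodule.finrank_add_le_finrank_add_finrank _ _)
  have h3 := finrank_sandwich_le (⊥ : Submodule K W) (LinearMap.range (a.toLinearMap - a'.toLinearMap))
  have h4 := finrank_sandwich_le (LinearMap.ker (b.symm.toLinearMap - b'.symm.toLinearMap)) (⊤ : Submodule K V)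
  have h5 := rk_add_ker b.symm b'.symm
  have h6 := rk_symm_le b b'
  rw [finrank_bot, Nat.sub_zero] at h3
  rw [finrank_top] at h4
  have h7 : finrank K W - finrank K (LinearMap.ker (b.symm.toLinearMap - b'.symm.toLinearMap)) ≤ rk b b' := by
    omega
  calc rk (T a b) (T a' b') ≤ _ := h2
    _ ≤ finrank K W * rk a a' + rk b b' * finrank K V := by
      refine Nat.add_le_add h3 (h4.trans (Nat.mul_le_mul_right _ h7))
    _ = _ := by ring

/-- adding a trivial summand of the same dimension -/
noncomputable def pad (a : V ≃ₗ[K] V) : (V × V) ≃ₗ[K] (V × V) :=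
  LinearEquiv.prodCongr a (LinearEquiv.refl K V)

theorem pad_mul (a b : V ≃ₗ[K] V) : pad (a * b) = pad a * pad b := by
  ext x <;> rfl

theorem rk_pad (a b : V ≃ₗ[K] V) : rk (pad a) (pad b) = rk a b := by
  have h : LinearMap.range ((pad a).toLinearMap - (pad b).toLinearMap) =
      (LinearMap.range (a.toLinearMap - b.toLinearMap)).map (LinearMap.inl K V V) := by
    ext x
    constructor
    · rintro ⟨y, rfl⟩
      refine ⟨(a.toLinearMap - b.toLinearMap) y.1, ⟨y.1, rfl⟩, ?_⟩
      ext <;> simp [pad]
    · rintro ⟨_, ⟨v, rfl⟩, rfl⟩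
      refine ⟨(v, 0), ?_⟩
      ext <;> simp [pad]
  unfold rk
  rw [h]
  exact (Submodule.equivMapOfInjective (LinearMap.inl K V V) LinearMap.inl_injective _).finrank_eq.symm

end basic

/-- normalised rank distance of linear automorphisms -/
noncomputable def dk {V : Type*} [AddCommGroup V] [Module K V] (a b : V ≃ₗ[K] V) : ℝ :=
  (rk a b : ℝ) / finrank K V

end Pool.Agent.R654.LS
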